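import Pool.Agent.Helper77.RL.Goals2
import Pool.Agent.Helper95.RL.SUB

/-! Packet RL-DAT: the lifted datum. -/

namespace Pool.Agent.Helper32.RL

open NumberField Polynomial Module IsDedekindDomain TensorProduct Pool.Agent.Helper51.SigLeo
open Pool.Agent.Helper51.RP
open Pool.Agent.Helper42.RD (IsDat LocD Match TSet)
open Pool.Agent.Helper77.RL
open Pool.Agent.Helper95.RL (exists_below)

section

variable {M M' : Type} [Field M] [NumberField M] [Field M'] [NumberField M'] [Algebra M M']

lemma above_unique {W : HeightOneSpectrum (𝓞 M')} {w w' : HeightOneSpectrum (𝓞 M)}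
    (h : Above W w) (h' : Above W w') : w = w' := by
  apply HeightOneSpectrum.ext
  unfold Above at h h'
  rw [← h, ← h']

lemma mem_above {W : HeightOneSpectrum (𝓞 M')} {w : HeightOneSpectrum (𝓞 M)} (h : Above W w)
    (x : 𝓞 M) : W.valuation M' (algebraMap M M' (x : M)) < 1 ↔ x ∈ w.asIdeal := by
  have e2 : algebraMap M M' (x : M) = algebraMap (𝓞 M') M' (algebraMap (𝓞 M) (𝓞 M') x) := rfl
  rw [e2, HeightOneSpectrum.valuation_lt_one_iff_mem]
  unfold Above at h
  rw [← h, Ideal.mem_comap]

lemma finite_above (w : HeightOneSpectrum (𝓞 M)) :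
    {W : HeightOneSpectrum (𝓞 M') | Above W w}.Finite := by
  have hI : w.asIdeal.map (algebraMap (𝓞 M) (𝓞 M')) ≠ 0 := by
    rw [Ne, Ideal.zero_eq_bot, Ideal.map_eq_bot_iff_of_injective]
    · exact w.ne_bot
    · exact FaithfulSMul.algebraMap_injective (𝓞 M) (𝓞 M')
  refine (Ideal.finite_factors hI).subset ?_
  intro W hW
  show W.asIdeal ∣ _
  rw [Ideal.dvd_iff_le, Ideal.map_le_iff_le_comap]
  exact le_of_eq (show Above W w from hW).symm

end

section

variable {K M L M' : Type} [Field K] [NumberField K] [Field M]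
    [NumberField M] [Field L] [NumberField L] [Field M'] [NumberField M']
    [Algebra K M] [Algebra K L] [Algebra K M'] [Algebra M M'] [Algebra L M'] [IsScalarTower K M M']
    [IsScalarTower K L M']

/-- conjugate primes lie above conjugate primes -/
lemma conj_below [Normal K M] {W W' : HeightOneSpectrum (𝓞 M')} (h : ConjP L W' W)
    {w w' : HeightOneSpectrum (𝓞 M)} (hw : Above W w) (hw' : Above W' w') : ConjP K w' w := by
  obtain ⟨g, hg⟩ := h
  let ρ : M ≃ₐ[K] M := (g.restrictScalars K).restrictNormal M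
  have hρ : ∀ x : M, algebraMap M M' (ρ x) = g (algebraMap M M' x) := fun x =>
    (g.restrictScalars K).restrictNormal_commutes M x
  obtain ⟨w'', -, h''⟩ := Pool.Agent.Helper90.RP.exists_pull (K := K) ρ w'
  have heq : w'' = w := by
    apply HeightOneSpectrum.ext
    ext x
    rw [← mem_above hw, ← hg, ← hρ, ← HeightOneSpectrum.valuation_lt_one_iff_mem (K := M)]
    rw [← h'']
    -- ρ x is integral
    have hint : IsIntegral ℤ (ρ (x : M)) := (x.2 : IsIntegral ℤ (x : M)).map
      (ρ : M →ₐ[K] M).toRingHom.toIntAlgHom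
    let y : 𝓞 M := ⟨ρ (x : M), hint⟩
    have e2 : ρ (x : M) = (y : M) := rfl
    rw [e2, mem_above hw', ← HeightOneSpectrum.valuation_lt_one_iff_mem (K := M)]
  refine ⟨ρ, fun y => ?_⟩
  rw [h'', heq]

lemma above_tower {W : HeightOneSpectrum (𝓞 M')} {w : HeightOneSpectrum (𝓞 M)}
    {V : HeightOneSpectrum (𝓞 L)} {v : HeightOneSpectrum (𝓞 K)} (h1 : Above W w) (h2 : Above W V)
    (h3 : Above w v) : Above V v := by
  unfold Above at *
  ext x
  rw [← h3, ← h2, ← h1, Ideal.mem_comap, Ideal.mem_comap, Ideal.mem_comap, Ideal.mem_comap]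
  have e : algebraMap (𝓞 L) (𝓞 M') (algebraMap (𝓞 K) (𝓞 L) x) =
      algebraMap (𝓞 M) (𝓞 M') (algebraMap (𝓞 K) (𝓞 M) x) := by
    apply RingOfIntegers.ext
    show algebraMap L M' (algebraMap K L (x : K)) = algebraMap M M' (algebraMap K M (x : K))
    rw [← IsScalarTower.algebraMap_apply K L M', ← IsScalarTower.algebraMap_apply K M M']
  rw [e]

end

/-- **L_DAT** -/
theorem l_dat (h1 : Pool.Agent.Helper77.RL.L_FRE) (h2 : Pool.Agent.Helper77.RL.L_EF1) :
    Pool.Agent.Helper77.RL.L_DAT := by
  intro p hp n K M L M' _ _ _ _ _ _ _ _ _ _ _ _ _ _ _ hS R al hD hsplit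
  classical
  have hgalM : IsGalois K M := hS.galM
  refine ⟨?_, ?_⟩
  · refine ⟨{W | ∃ w ∈ R, Above W w}, fun W => algebraMap K L (al (exists_below (M := M) W).choose),
      ?_, ?_⟩
    · intro W w hW
      constructor
      · rintro ⟨w', hw', h⟩
        rw [above_unique hW h]
        exact hw'
      · intro h
        exact ⟨w, h, hW⟩
    · intro W w hW _
      have h3 := (exists_below (M := M) W).choose_spec
      rw [above_unique h3 hW]
  · intro R' al' hL
    have key : ∀ W ∈ R', ∃ w ∈ R, Above W w ∧ al' W = algebraMap K L (al w) := by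
      intro W hW
      obtain ⟨w, hw⟩ := exists_below (M := M) W
      have hwR := (hL.iff W w hw).1 hW
      exact ⟨w, hwR, hw, hL.eq W w hw hwR⟩
    have hEF : ∀ (W : HeightOneSpectrum (𝓞 M')) (w : HeightOneSpectrum (𝓞 M)), w ∈ R → Above W w →
        (∀ x : M, ordv W (algebraMap M M' x) = ordv w x) ∧
        ∀ y : 𝓞 M', ∃ x : 𝓞 M, y - algebraMap (𝓞 M) (𝓞 M') x ∈ W.asIdeal := by
      intro W w hw hW
      obtain ⟨V, hV⟩ := exists_below (M := L) W
      obtain ⟨v, hv⟩ := exists_below (M := K) w
      exact h2 p n K M L M' hS W w V hW hV (hsplit w hw v hv V (above_tower hW hV hv))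
    refine ⟨?_, ?_, ?_, ?_, ?_, ?_, ?_⟩
    · -- fin
      refine (hD.fin.biUnion (fun w _ => finite_above (M' := M') w)).subset ?_
      intro W hW
      obtain ⟨w, hw, hWw, -⟩ := key W hW
      exact Set.mem_biUnion hw hWw
    · -- stable
      intro W hW W' hc
      obtain ⟨w, hw, hWw, -⟩ := key W hW
      obtain ⟨w', hw'⟩ := exists_below (M := M) W'
      rw [hL.iff W' w' hw']
      exact hD.stable w hw w' (conj_below (K := K) (L := L) hc hWw hw')
    · -- free
      intro W hW
      obtain ⟨w, hw, hWw, -⟩ := key W hW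
      exact (h1 p n K M L M' hS W w hWw).2 (hD.free w hw)
    · -- copr
      intro W hW
      obtain ⟨w, hw, hWw, -⟩ := key W hW
      have h3 := hD.copr w hw
      by_contra hne
      have hle : W.valuation M' (p : M') ≤ 1 := by
        have h4 : W.valuation M' (algebraMap (𝓞 M') M' (p : 𝓞 M')) ≤ 1 := W.valuation_le_one _
        rwa [map_natCast] at h4
      have hlt : W.valuation M' (p : M') < 1 := lt_of_le_of_ne hle hne
      have h5 : ((p : ℕ) : 𝓞 M) ∈ w.asIdeal := by
        rw [← mem_above hWw]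
        have e : algebraMap M M' (((p : ℕ) : 𝓞 M) : M) = (p : M') := by
          have e1 : (((p : ℕ) : 𝓞 M) : M) = (p : M) := map_natCast (algebraMap (𝓞 M) M) p
          rw [e1, map_natCast]
        rw [e]
        exact hlt
      have h6 : w.valuation M (((p : ℕ) : 𝓞 M) : M) < 1 :=
        (w.valuation_lt_one_iff_mem (K := M) _).2 h5
      have e1 : (((p : ℕ) : 𝓞 M) : M) = (p : M) := map_natCast (algebraMap (𝓞 M) M) p
      rw [e1, h3] at h6
      exact lt_irrefl _ h6
    · -- norm
      intro W hW
      obtain ⟨w, hw, hWw, -⟩ := key W hW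
      have h3 := (hEF W w hw hWw).2
      have h4 : Ideal.absNorm W.asIdeal = Ideal.absNorm w.asIdeal := by
        rw [Ideal.absNorm_apply, Ideal.absNorm_apply, Submodule.cardQuot_apply,
          Submodule.cardQuot_apply]
        have hle : w.asIdeal ≤ W.asIdeal.comap (algebraMap (𝓞 M) (𝓞 M')) := le_of_eq hWw.symm
        refine (Nat.card_eq_of_bijective (Ideal.quotientMap W.asIdeal (algebraMap (𝓞 M) (𝓞 M')) hle)
          ⟨?_, ?_⟩).symm
        · exact Ideal.quotientMap_injective' (le_of_eq hWw)
        · intro y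
          obtain ⟨y, rfl⟩ := Ideal.Quotient.mk_surjective y
          obtain ⟨x, hx⟩ := h3 y
          refine ⟨Ideal.Quotient.mk _ x, ?_⟩
          rw [Ideal.quotientMap_mk, eq_comm, ← sub_eq_zero, ← map_sub,
            Ideal.Quotient.eq_zero_iff_mem]
          exact hx
      rw [h4]
      exact hD.norm w hw
    · -- unif
      intro W hW
      obtain ⟨w, hw, hWw, hal⟩ := key W hW
      rw [hal]
      have e : algebraMap L M' (algebraMap K L (al w)) = algebraMap M M' (algebraMap K M (al w)) := by
        rw [← IsScalarTower.algebraMap_apply K L M', ← IsScalarTower.algebraMap_apply K M M']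
      rw [e, (hEF W w hw hWw).1]
      exact hD.unif w hw
    · -- const
      intro W hW W' hc
      obtain ⟨w, hw, hWw, hal⟩ := key W hW
      obtain ⟨w', hw'⟩ := exists_below (M := M) W'
      have hconj := conj_below (K := K) (L := L) hc hWw hw'
      have hwR' := hD.stable w hw w' hconj
      rw [hL.eq W' w' hw' hwR', hal, hD.const w hw w' hconj]

end Pool.Agent.Helper32.RL
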